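import Pool.Agent.Y7.LN.Stm

/-!
Project LN, step INDB: the backward chain (downward induction from the carrier mode).
-/

open Set Filter Topology MeasureTheory Metric

set_option autoImplicit false

namespace Pool.Agent.Y689.LN

open Pool.Agent.Y7.LN
open Pool.Agent.Y5 (Pr)
open Pool.Agent.Y303.EJ (dl)

theorem sN_nonneg {lm L : ℕ → ℝ} (w0 : ∀ n, 0 < wd lm L n) (N n : ℕ) : 0 ≤ sN lm L N n :=
  Finset.sum_nonneg fun i _ => (w0 i).le

theorem sN_anti {lm L : ℕ → ℝ} (w0 : ∀ n, 0 < wd lm L n) (N : ℕ) {a b : ℕ} (h : a ≤ b) :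
    sN lm L N b ≤ sN lm L N a := by
  unfold sN
  refine Finset.sum_le_sum_of_subset_of_nonneg ?_ fun i _ _ => (w0 i).le
  intro i hi
  rw [Finset.mem_Ico] at hi ⊢
  exact ⟨le_trans h hi.1, hi.2⟩

theorem sN_self (lm L : ℕ → ℝ) (N : ℕ) : sN lm L N N = 0 := by
  unfold sN
  simp

/-- Step of the downward induction. -/
theorem stepB (hL : S_LIPB) (hD : S_DECB) (hE : S_ENB) (hB : S_BARB) {η : ℝ}
    {lm L C ℓ : ℕ → ℝ} {B : ℕ → ℕ → ℝ} {N : ℕ} {T : ℝ} {x R : ℕ → ℝ → ℝ}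
    (hc : Cb η lm L C ℓ B N T x R) {c : ℝ} (h2 : 1 / 2 ≤ c)
    (hm : ∀ m, m < N → x m 0 ≤ 1 / 100) (hT : sN lm L N 0 < T) {n : ℕ} (hn : n + 1 ≤ N)
    (ih : ∀ m, n < m → m ≤ N → x m (sN lm L N m) ≤ -(c - dl η m / 100)) :
    x n (sN lm L N n) ≤ -(c - dl η n / 100) := by
  have w0 := hc.wn.w0
  have hd0 := hc.nm.d0 (n + 1)
  have hd1 := hc.nm.d1 (n + 1)
  have hds := hc.nm.ds n
  have hdn0 := hc.nm.d0 n
  have hsn : sN lm L N n < T := lt_of_le_of_lt (sN_anti w0 N (Nat.zero_le n)) hT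
  have hs1n : sN lm L N (n + 1) ≤ sN lm L N n := sN_anti w0 N (Nat.le_succ n)
  have hs10 : 0 ≤ sN lm L N (n + 1) := sN_nonneg w0 N (n + 1)
  have hs1T : sN lm L N (n + 1) ∈ Ico 0 T := ⟨hs10, lt_of_le_of_lt hs1n hsn⟩
  have hP1 := ih (n + 1) (Nat.lt_succ_self n) hn
  have hρ3 : 1 / 3 ≤ c - dl η (n + 1) / 100 - dl η (n + 1) ^ 2 / 40 := by nlinarith
  have hxn : x n (sN lm L N (n + 1)) ≤ 1 / 50 := by
    have h0 := hm n (by omega)
    have hl := hL η lm L C ℓ B N T x R hc 0 (sN lm L N (n + 1)) le_rfl hs10 hs1T.2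
    rcases n with _ | m
    · have := hl.2
      linarith
    · have h1 := hl.1 m
      have h3 := hc.wn.ws N (m + 1 + 1)
      have h4 := hc.wn.wL m (m + 1) (Nat.le_succ m)
      have h5 := hc.wn.sq4 (m + 1 + 1)
      have hL0 : 1 ≤ L m := hc.nm.L1 m
      have h6 : L m * sN lm L N (m + 1 + 1) ≤ L m * (2 * wd lm L (m + 1 + 1)) :=
        mul_le_mul_of_nonneg_left h3 (by linarith)
      have h7 : dl η (m + 1 + 1) ^ 2 / 10 ^ 15 ≤ 1 / 10 ^ 4 := by
        have : dl η (m + 1 + 1) ^ 2 ≤ 1 := by nlinarith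
        have h8 : dl η (m + 1 + 1) ^ 2 / 10 ^ 15 ≤ 1 / 10 ^ 15 :=
          div_le_div_of_nonneg_right this (by norm_num)
        refine le_trans h8 (by norm_num)
      nlinarith
  have hR1 : (c - dl η (n + 1) / 100) ^ 2 ≤ R n (sN lm L N (n + 1)) ^ 2 := by
    have e1 := hc.Rsq n _ hs1T
    have e2 := hc.Rsq (n + 1) _ hs1T
    have hpos : 0 ≤ c - dl η (n + 1) / 100 := by linarith
    have h3 : (c - dl η (n + 1) / 100) ^ 2 ≤ x (n + 1) (sN lm L N (n + 1)) ^ 2 := by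
      nlinarith
    nlinarith [sq_nonneg (x n (sN lm L N (n + 1))),
      sq_nonneg (R (n + 1 + 1) (sN lm L N (n + 1)))]
  have key : ∀ t ∈ Ico (sN lm L N (n + 1)) (sN lm L N n),
      (c - dl η (n + 1) / 100 - dl η (n + 1) ^ 2 / 40) ^ 2 ≤ R n t ^ 2 := by
    intro t ht
    have htT : t ∈ Ico 0 T := ⟨le_trans hs10 ht.1, lt_trans ht.2 hsn⟩
    have hPr : ∀ i, n ≤ i → i + 1 ≤ N → Pr (fun s => L i * R (i + 1) s ^ 2) t ≤ 100 := by
      intro i hi hiN
      refine (hD η lm L C ℓ B N T x R hc i t hiN htT ?_).2 t ⟨htT.1, le_rfl⟩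
      intro j hj hjt
      have hnj : n < j := by
        by_contra hcon
        have h1 : sN lm L N n ≤ sN lm L N j := sN_anti w0 N (not_lt.mp hcon)
        linarith [ht.2]
      have h1 := ih j hnj (by omega)
      have h3 := hc.nm.d1 j
      linarith
    have hen := hE η lm L C ℓ B N T x R hc n t hn htT ht.1 ht.2.le hPr
    have h3 : (c - dl η (n + 1) / 100 - dl η (n + 1) ^ 2 / 40) ^ 2 ≤
        (c - dl η (n + 1) / 100) ^ 2 - dl η (n + 1) ^ 2 / 100 := by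
      have h4 : 49 / 100 ≤ c - dl η (n + 1) / 100 := by linarith
      have h5 : 0 ≤ dl η (n + 1) ^ 2 := sq_nonneg _
      have h6 : dl η (n + 1) ^ 2 ≤ 1 := by nlinarith
      generalize c - dl η (n + 1) / 100 = a at h4 ⊢
      generalize dl η (n + 1) ^ 2 = e at h5 h6 ⊢
      nlinarith [mul_le_mul_of_nonneg_right h4 h5, mul_le_mul_of_nonneg_right h6 h5]
    linarith
  have hfin := hB η lm L C ℓ B N T x R hc n _ hn hsn hρ3 hxn key
  rw [hds] at hfin hd1
  nlinarith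

/-- The backward chain. -/
theorem t_INDB (hL : S_LIPB) (hD : S_DECB) (hE : S_ENB) (hB : S_BARB) : S_INDB := by
  intro η lm L C ℓ B N T x R hc c h2 hx hm hT
  have w0 := hc.wn.w0
  have main : ∀ k n : ℕ, N ≤ n + k → n ≤ N → x n (sN lm L N n) ≤ -(c - dl η n / 100) := by
    intro k
    induction k with
    | zero =>
      intro n h1 h3
      have hnN : n = N := by omega
      subst hnN
      rw [sN_self]
      have := hc.nm.d0 n
      linarith
    | succ k ih =>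
      intro n h1 h3
      rcases Nat.lt_or_ge n N with h4 | h4
      · exact stepB hL hD hE hB hc h2 hm hT h4 fun m hm1 hm2 => ih m (by omega) hm2
      · exact ih n (by omega) h3
  have hmain : ∀ n, n ≤ N → x n (sN lm L N n) ≤ -(c - dl η n / 100) := fun n hn =>
    main N n (by omega) hn
  refine ⟨hmain, ?_⟩
  intro k hk u hu
  have huT : u ∈ Ico 0 T := ⟨le_trans (sN_nonneg w0 N k) hu.1, hu.2⟩
  refine (hD η lm L C ℓ B N T x R hc (k + 1) u (by omega) huT ?_).1 k rfl u ⟨hu.1, le_rfl⟩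
  intro j hj _
  have h1 := hmain j (by omega)
  have h3 := hc.nm.d1 j
  linarith

end Pool.Agent.Y689.LN
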